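import Mathlib
import Pool.Agent.H92.TD.Asm2

/-!
MP_5aa732_co, Q1 for graphs without an induced claw plus disjoint edge.
-/

set_option autoImplicit false

namespace Pool.Agent.Results.MP_5aa732_co.ClawPlusEdgeFree

/-- A finite graph without an induced subgraph `K_{1,3} ∪ K_2` (a claw and an edge, disjoint and
with no edge between them) is 2-divisible if and only if it has no odd hole. Moreover, if it has no
induced cycle of length five, then every induced subgraph with a triangle has a 2-division. -/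
theorem result :
    ∀ (V : Type) [Fintype V] [DecidableEq V] (G : SimpleGraph V),
      IsEmpty ((completeBipartiteGraph (Fin 1) (Fin 3) ⊕g (⊤ : SimpleGraph (Fin 2))) ↪g G) →
      ((∀ S : Finset V, (∃ u ∈ S, ∃ v ∈ S, G.Adj u v) →
        ∃ A : Finset V, A ⊆ S ∧
          (∀ T : Finset V, T ⊆ A → G.IsClique (T : Set V) →
              ∃ T' : Finset V, T' ⊆ S ∧ G.IsClique (T' : Set V) ∧ T.card < T'.card) ∧
          (∀ T : Finset V, T ⊆ S \ A → G.IsClique (T : Set V) →
              ∃ T' : Finset V, T' ⊆ S ∧ G.IsClique (T' : Set V) ∧ T.card < T'.card)) ↔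
      ∀ k : ℕ, 2 ≤ k → IsEmpty (SimpleGraph.cycleGraph (2 * k + 1) ↪g G)) ∧
      (IsEmpty (SimpleGraph.cycleGraph 5 ↪g G) →
        ∀ S : Finset V, (∃ T : Finset V, T ⊆ S ∧ G.IsNClique 3 T) →
        ∃ A : Finset V, A ⊆ S ∧
          (∀ T : Finset V, T ⊆ A → G.IsClique (T : Set V) →
              ∃ T' : Finset V, T' ⊆ S ∧ G.IsClique (T' : Set V) ∧ T.card < T'.card) ∧
          (∀ T : Finset V, T ⊆ S \ A → G.IsClique (T : Set V) →
              ∃ T' : Finset V, T' ⊆ S ∧ G.IsClique (T' : Set V) ∧ T.card < T'.card)) := by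
  intro V _ _ G hc
  refine ⟨⟨?_, ?_⟩, ?_⟩
  · intro h2
    exact Pool.Agent.H92.TD.asm_forw h2
  · intro ho S hS
    exact Pool.Agent.H92.TD.asm_back2 ho (Pool.Agent.H92.TD.ClawK2free_of hc) S hS
  · intro h5 S hS
    exact Pool.Agent.H92.TD.asm_back3 (Pool.Agent.H92.TD.C5free_of_isEmpty h5)
      (Pool.Agent.H92.TD.ClawK2free_of hc) S hS

end Pool.Agent.Results.MP_5aa732_co.ClawPlusEdgeFree
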