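import Mathlib
import Pool.Agent.H92.TK.KAsm

/-!
MP_5aa732_co, Q1 for graphs without an induced fork plus isolated vertex.
-/

set_option autoImplicit false

namespace Pool.Agent.Results.MP_5aa732_co.ForkPlusVertexFree

/-- A finite graph without an induced subgraph consisting of a fork (the tree on five vertices
obtained from the claw by subdividing one edge once) and a vertex not adjacent to it is
2-divisible if and only if it has no odd hole. -/
theorem result :
    ∀ (V : Type) [Fintype V] [DecidableEq V] (G : SimpleGraph V),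
      IsEmpty ((SimpleGraph.fromEdgeSet
        ({s(0, 1), s(0, 2), s(0, 3), s(3, 4)} : Set (Sym2 (Fin 5))) ⊕g
          (⊥ : SimpleGraph (Fin 1))) ↪g G) →
      ((∀ S : Finset V, (∃ u ∈ S, ∃ v ∈ S, G.Adj u v) →
        ∃ A : Finset V, A ⊆ S ∧
          (∀ T : Finset V, T ⊆ A → G.IsClique (T : Set V) →
              ∃ T' : Finset V, T' ⊆ S ∧ G.IsClique (T' : Set V) ∧ T.card < T'.card) ∧
          (∀ T : Finset V, T ⊆ S \ A → G.IsClique (T : Set V) →
              ∃ T' : Finset V, T' ⊆ S ∧ G.IsClique (T' : Set V) ∧ T.card < T'.card)) ↔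
      ∀ k : ℕ, 2 ≤ k → IsEmpty (SimpleGraph.cycleGraph (2 * k + 1) ↪g G)) := by
  intro V _ _ G hc
  constructor
  · intro h2
    exact Pool.Agent.H92.TD.asm_forw h2
  · intro ho S hS
    exact Pool.Agent.H92.TK.kasm_back ho (Pool.Agent.H92.TK.ForkK1free_of hc) S hS

end Pool.Agent.Results.MP_5aa732_co.ForkPlusVertexFree
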