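import Mathlib
import Pool.Agent.H92.BL.LFin
import Pool.Agent.H92.BL.LCls

/-!
MP_5aa732_co, Q1 for graphs without loaded hats, a common generalisation of claw-free, `P_5`-free and bull-free graphs.
-/

set_option autoImplicit false

namespace Pool.Agent.Results.MP_5aa732_co.LoadedHats

/-- The vertices `a`, `b`, `c` are the leaves of an induced claw with centre `v`. -/
def IsClaw {V : Type} (G : SimpleGraph V) (v a b c : V) : Prop :=
  G.Adj v a ∧ G.Adj v b ∧ G.Adj v c ∧ a ≠ b ∧ a ≠ c ∧ b ≠ c ∧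
    ¬ G.Adj a b ∧ ¬ G.Adj a c ∧ ¬ G.Adj b c

/-- There are an even hole `f`, a hat `w` of it (its neighbours on the hole are exactly the two adjacent vertices `f i`,
`f j`), and an induced claw with centre `v` and leaves `a`, `b`, `c` such that one of the following holds.

* `v ≠ w`, some walk from `w` to `v` has no vertex other than `w` with a neighbour on the hole, each of `a` and `b` is `w`
  or has no neighbour on the hole, and `c` has no neighbours on the hole other than `f i`, `f j`.
* `v = w`, each leaf either has no neighbours on the hole other than `f i`, `f j`, or has the same neighbours on the hole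
  as `f j`, and neither `f i` nor `f j` is adjacent to all three leaves. -/
def LoadedHat {V : Type} (G : SimpleGraph V) : Prop :=
  ∃ (k : ℕ) (f : SimpleGraph.cycleGraph (2 * k + 4) ↪g G) (i j : Fin (2 * k + 4)) (w v a b c : V),
    (SimpleGraph.cycleGraph (2 * k + 4)).Adj i j ∧ (∀ l, G.Adj w (f l) ↔ (l = i ∨ l = j)) ∧
    IsClaw G v a b c ∧
    ((v ≠ w ∧ (∃ p : G.Walk w v, ∀ x ∈ p.support, x = w ∨ ∀ l, ¬ G.Adj x (f l)) ∧
        (a = w ∨ ∀ l, ¬ G.Adj a (f l)) ∧ (b = w ∨ ∀ l, ¬ G.Adj b (f l)) ∧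
        (∀ l, G.Adj c (f l) → l = i ∨ l = j)) ∨
      (v = w ∧
        (∀ z : V, z = a ∨ z = b ∨ z = c →
          (∀ l, G.Adj z (f l) → l = i ∨ l = j) ∨ (∀ l, G.Adj z (f l) ↔ G.Adj (f j) (f l))) ∧
        ¬ (G.Adj (f i) a ∧ G.Adj (f i) b ∧ G.Adj (f i) c) ∧
        ¬ (G.Adj (f j) a ∧ G.Adj (f j) b ∧ G.Adj (f j) c)))

/-- The bull: the path `0 - 1 - 2 - 3` and a vertex `4` adjacent to `1` and `2`. -/
def bull : SimpleGraph (Fin 5) :=
  SimpleGraph.fromEdgeSet {s(0, 1), s(1, 2), s(2, 3), s(1, 4), s(2, 4)}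

/-- The bull with a copy `5` of its leaf `0`: the vertex `5` is adjacent to `1` only. -/
def bullLeaf : SimpleGraph (Fin 6) :=
  SimpleGraph.fromEdgeSet {s(0, 1), s(1, 2), s(2, 3), s(1, 4), s(2, 4), s(1, 5)}

/-- The bull with a copy `5` of its top `4`: the vertex `5` is adjacent to `1` and `2` only. -/
def bullTop : SimpleGraph (Fin 6) :=
  SimpleGraph.fromEdgeSet {s(0, 1), s(1, 2), s(2, 3), s(1, 4), s(2, 4), s(1, 5), s(2, 5)}

/-- Some even hole `f` has a hat `w` with an antenna `w - u - t`: an induced path, `u` and `t` not adjacent to any vertex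
of the hole. -/
def HasAntenna {V : Type} (G : SimpleGraph V) : Prop :=
  ∃ (k : ℕ) (f : SimpleGraph.cycleGraph (2 * k + 4) ↪g G) (i j : Fin (2 * k + 4)) (w u t : V),
    (SimpleGraph.cycleGraph (2 * k + 4)).Adj i j ∧ (∀ l, G.Adj w (f l) ↔ (l = i ∨ l = j)) ∧
    G.Adj w u ∧ G.Adj u t ∧ ¬ G.Adj w t ∧ (∀ l, ¬ G.Adj u (f l)) ∧ (∀ l, ¬ G.Adj t (f l))

/-- `G` is 2-divisible: every vertex set `S` inducing an edge splits into `A` and `S \ A`, neither of which contains a
maximum clique of `S` (each clique in a part is smaller than some clique in `S`). -/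
def TwoDivisible {V : Type} [Fintype V] [DecidableEq V] (G : SimpleGraph V) : Prop :=
  ∀ S : Finset V, (∃ u ∈ S, ∃ v ∈ S, G.Adj u v) →
    ∃ A : Finset V, A ⊆ S ∧
      (∀ T : Finset V, T ⊆ A → G.IsClique (T : Set V) →
          ∃ T' : Finset V, T' ⊆ S ∧ G.IsClique (T' : Set V) ∧ T.card < T'.card) ∧
      (∀ T : Finset V, T ⊆ S \ A → G.IsClique (T : Set V) →
          ∃ T' : Finset V, T' ⊆ S ∧ G.IsClique (T' : Set V) ∧ T.card < T'.card)

/-- A finite graph without loaded hats is 2-divisible if and only if it has no odd hole. Claw-free graphs, graphs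
without induced path on five vertices, bull-free graphs, and more generally graphs without induced `bullLeaf` and
`bullTop` in which no even hole has a hat with an antenna, have no loaded hats. -/
theorem result :
    (∀ (V : Type) [Fintype V] [DecidableEq V] (G : SimpleGraph V), ¬ LoadedHat G →
      (TwoDivisible G ↔ ∀ k : ℕ, 2 ≤ k → IsEmpty (SimpleGraph.cycleGraph (2 * k + 1) ↪g G))) ∧
    (∀ (V : Type) [Fintype V] (G : SimpleGraph V),
      (IsEmpty (completeBipartiteGraph (Fin 1) (Fin 3) ↪g G) ∨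
        IsEmpty (SimpleGraph.pathGraph 5 ↪g G) ∨
        IsEmpty (bull ↪g G) ∨
        (IsEmpty (bullLeaf ↪g G) ∧ IsEmpty (bullTop ↪g G) ∧ ¬ HasAntenna G)) →
      ¬ LoadedHat G) := by
  constructor
  · intro V _ _ G hL
    constructor
    · intro h2
      exact Pool.Agent.H92.TD.asm_forw h2
    · intro ho S hS
      refine Pool.Agent.H92.BL.lasm_back ho ?_ ?_ S hS
      · intro k f i j w v a b c p hij hw hcl hvw hp ha hb hc
        exact hL ⟨k, f, i, j, w, v, a, b, c, hij, hw, hcl, Or.inl ⟨hvw, ⟨p, hp⟩, ha, hb, hc⟩⟩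
      · intro k f i j w a b c hij hw hcl ha hb hc h1 h2
        refine hL ⟨k, f, i, j, w, w, a, b, c, hij, hw, hcl, Or.inr ⟨rfl, ?_, h1, h2⟩⟩
        rintro z (rfl | rfl | rfl)
        · exact ha
        · exact hb
        · exact hc
  · intro V _ G hcase
    have key : Pool.Agent.H92.BL.Load1 G ∧ Pool.Agent.H92.BL.Load2 G := by
      rcases hcase with h | h | h | ⟨h1, h2, h3⟩
      · refine Pool.Agent.H92.BL.lcl_claw ?_
        intro v a b c hcl
        obtain ⟨hva, hvb, hvc, nab, nac, nbc, jab, jac, jbc⟩ := hcl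
        have e1 : v ≠ a := G.ne_of_adj hva
        have e2 : v ≠ b := G.ne_of_adj hvb
        have e3 : v ≠ c := G.ne_of_adj hvc
        let f : Fin 1 ⊕ Fin 3 → V := Sum.elim (fun _ => v) (![a, b, c])
        have hf : Function.Injective f := by
          intro x y hxy
          rcases x with x | x <;> rcases y with y | y <;> fin_cases x <;> fin_cases y <;>
            simp_all [f]
        refine h.false ⟨⟨f, hf⟩, ?_⟩
        intro x y
        have jba : ¬ G.Adj b a := fun h => jab h.symm
        have jcb : ¬ G.Adj c b := fun h => jbc h.symm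
        have jca : ¬ G.Adj c a := fun h => jac h.symm
        have hav := hva.symm
        have hbv := hvb.symm
        have hcv := hvc.symm
        rcases x with x | x <;> rcases y with y | y <;> fin_cases x <;> fin_cases y <;>
          simp [f, hva, hvb, hvc, jab, jac, jbc, jba, jcb, jca, hav, hbv, hcv]
      · exact Pool.Agent.H92.BL.lcl_P5 h
      · have hb := Pool.Agent.H92.BF.Bullfree_of h
        refine Pool.Agent.H92.BL.lcl_few ?_ ?_ ?_
        · intro p p' a b q t h1 h2 h3 h4 h5 h6 _ _ h7 h8 h9 h10 h11 _ _ _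
          exact hb p a b q t h1 h3 h4 h5 h6 h7 h8 h9 h10 h11
        · intro p a b q t t' h1 h2 h3 h4 h5 _ _ _ _ h6 h7 h8 h9 h10 _ _
          exact hb p a b q t h1 h2 h3 h4 h5 h6 h7 h8 h9 h10
        · intro k f i j w u t hij hw hwu _ _ hu _
          exact Pool.Agent.H92.BJ.cls_bull1 hb f hij hw hwu hu
      · refine Pool.Agent.H92.BL.lcl_few (Pool.Agent.H92.BG.B1free_of h1)
          (Pool.Agent.H92.BG.B2free_of h2) ?_
        intro k f i j w u t hij hw hwu hut nwt hu ht
        exact h3 ⟨k, f, i, j, w, u, t, hij, hw, hwu, hut, nwt, hu, ht⟩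
    rintro ⟨k, f, i, j, w, v, a, b, c, hij, hw, hcl, hor⟩
    rcases hor with ⟨hvw, ⟨p, hp⟩, ha, hb, hc⟩ | ⟨rfl, hz, h1, h2⟩
    · exact key.1 k f i j w v a b c p hij hw hcl hvw hp ha hb hc
    · exact key.2 k f i j v a b c hij hw hcl (hz a (Or.inl rfl)) (hz b (Or.inr (Or.inl rfl)))
        (hz c (Or.inr (Or.inr rfl))) h1 h2

end Pool.Agent.Results.MP_5aa732_co.LoadedHats
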