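import Mathlib
import Pool.Agent.H92.HM.ExchP

/-!
MP_5aa732_co, Q1 for graphs without induced long hammer (triangle with a pendant path of length three),
and for graphs whose prime induced subgraphs satisfy one of four conditions.
-/

set_option autoImplicit false

namespace Pool.Agent.Results.MP_5aa732_co.LongHammerFree

/-- The long hammer: the triangle `0, 1, 2` and the path `2, 3, 4, 5`. -/
def longHammer : SimpleGraph (Fin 6) :=
  SimpleGraph.fromEdgeSet {s(0, 1), s(0, 2), s(1, 2), s(2, 3), s(3, 4), s(4, 5)}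

/-- The hammer: the triangle `0, 1, 2` and the path `2, 3, 4`. -/
def hammer : SimpleGraph (Fin 5) :=
  SimpleGraph.fromEdgeSet {s(0, 1), s(0, 2), s(1, 2), s(2, 3), s(3, 4)}

/-- The disjoint union of the triangle `0, 1, 2` and the edge `34`. -/
def triangleEdge : SimpleGraph (Fin 5) :=
  SimpleGraph.fromEdgeSet {s(0, 1), s(0, 2), s(1, 2), s(3, 4)}

/-- The induced subgraph on `S` has a 2-division. -/
def HasTwoDivision {V : Type} [DecidableEq V] (G : SimpleGraph V) (S : Finset V) : Prop :=
  ∃ A : Finset V, A ⊆ S ∧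
    (∀ T : Finset V, T ⊆ A → G.IsClique (T : Set V) →
        ∃ T' : Finset V, T' ⊆ S ∧ G.IsClique (T' : Set V) ∧ T.card < T'.card) ∧
    (∀ T : Finset V, T ⊆ S \ A → G.IsClique (T : Set V) →
        ∃ T' : Finset V, T' ⊆ S ∧ G.IsClique (T' : Set V) ∧ T.card < T'.card)

/-- 2-divisible: every induced subgraph with an edge has a 2-division. -/
def TwoDivisible {V : Type} [DecidableEq V] (G : SimpleGraph V) : Prop :=
  ∀ S : Finset V, (∃ u ∈ S, ∃ v ∈ S, G.Adj u v) → HasTwoDivision G S

/-- No induced cycle of odd length at least five. -/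
def NoOddHole {V : Type} (G : SimpleGraph V) : Prop :=
  ∀ k : ℕ, 2 ≤ k → IsEmpty (SimpleGraph.cycleGraph (2 * k + 1) ↪g G)

/-- `w` is the clique number of the induced subgraph on `H`. -/
def CliqueNumber {V : Type} (G : SimpleGraph V) (H : Finset V) (w : ℕ) : Prop :=
  (∃ K : Finset V, K ⊆ H ∧ G.IsNClique w K) ∧
    ∀ K : Finset V, K ⊆ H → G.IsClique (K : Set V) → K.card ≤ w

/-- `x` misses `K`: it is not in `K` and has no neighbour in `K`. -/
def Misses {V : Type} (G : SimpleGraph V) (K : Finset V) (x : V) : Prop :=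
  x ∉ K ∧ ∀ k ∈ K, ¬ G.Adj x k

/-- `H` induces a prime graph: no set `M` of at least two vertices of `H`, other than `H`, is such that
each vertex of `H` outside `M` is adjacent to all or to none of the vertices of `M`. -/
def PrimeSet {V : Type} (G : SimpleGraph V) (H : Finset V) : Prop :=
  ∀ M : Finset V, M ⊆ H → 2 ≤ M.card →
    (∀ z ∈ H, z ∉ M → (∀ x ∈ M, G.Adj z x) ∨ (∀ x ∈ M, ¬ G.Adj z x)) → M = H

/-- Every vertex of `H` misses a `w`-clique of `H`. -/
def AllMiss {V : Type} (G : SimpleGraph V) (H : Finset V) (w : ℕ) : Prop :=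
  ∀ v ∈ H, ∃ K : Finset V, K ⊆ H ∧ G.IsNClique w K ∧ Misses G K v

/-- (A) `w ≥ 3`, and there are no long hammer in `H` and `w`-clique `K` of `H` such that `K` contains the
triangle `0, 1, 2` and is missed by `4`, or `K` contains the edge `45` and is missed by `2`. -/
def CondA {V : Type} (G : SimpleGraph V) (H : Finset V) (w : ℕ) : Prop :=
  3 ≤ w ∧ ∀ f : longHammer ↪g G, (∀ i, f i ∈ H) → ∀ K : Finset V, K ⊆ H → G.IsNClique w K →
    ¬ (f 0 ∈ K ∧ f 1 ∈ K ∧ f 2 ∈ K ∧ Misses G K (f 4)) ∧ ¬ (f 4 ∈ K ∧ f 5 ∈ K ∧ Misses G K (f 2))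

/-- (B) For some vertex `v` of `H` there are no induced path `a, b, c, d` and no `w`-cliques `K`, `K'` of
`H` missed by `v` such that `a`, `b` are in `K` and `c`, `d` are in `K'`. -/
def CondB {V : Type} (G : SimpleGraph V) (H : Finset V) (w : ℕ) : Prop :=
  ∃ v ∈ H, ∀ (K K' : Finset V) (a b c d : V), K ⊆ H → K' ⊆ H → G.IsNClique w K → G.IsNClique w K' →
    Misses G K v → Misses G K' v → a ∈ K → b ∈ K → c ∈ K' → d ∈ K' → a ≠ c → b ≠ d → a ≠ d →
    G.Adj b c → ¬ G.Adj a c → ¬ G.Adj b d → ¬ G.Adj a d → False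

/-- (C) For some `d ≥ 1` with `3 d ≤ w`: if `K` is a clique of at least `w - 2 d + 2` vertices, `z`
misses `K` and `y` is a neighbour of `z` with a neighbour in `K`, then `y` has at most `d`
non-neighbours in `K`. -/
def CondC {V : Type} (G : SimpleGraph V) (H : Finset V) (w : ℕ) : Prop :=
  ∃ d : ℕ, 1 ≤ d ∧ 3 * d ≤ w ∧ ∀ (K D : Finset V) (y z a : V),
    K ⊆ H → y ∈ H → z ∈ H → G.IsClique (K : Set V) → w + 2 ≤ K.card + 2 * d → Misses G K z →
    G.Adj z y → a ∈ K → G.Adj y a → D ⊆ K → (∀ k ∈ D, ¬ G.Adj y k) → D.card ≤ d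

/-- (D) For some `d ≥ 1` with `2 d + 1 ≤ w`: if `z` misses a `w`-clique `K`, then every neighbour `y` of
`z` has at most `d` non-neighbours in `K`. -/
def CondD {V : Type} (G : SimpleGraph V) (H : Finset V) (w : ℕ) : Prop :=
  ∃ d : ℕ, 1 ≤ d ∧ 2 * d + 1 ≤ w ∧ ∀ (K D : Finset V) (y z : V),
    K ⊆ H → y ∈ H → z ∈ H → G.IsNClique w K → Misses G K z →
    G.Adj z y → D ⊆ K → (∀ k ∈ D, ¬ G.Adj y k) → D.card ≤ d

/-- One of the four conditions holds. -/
def Good {V : Type} (G : SimpleGraph V) (H : Finset V) (w : ℕ) : Prop :=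
  CondA G H w ∨ CondB G H w ∨ CondC G H w ∨ CondD G H w

/-- If every vertex set that induces a prime graph with clique number `w ≥ 3` and whose vertices all miss
`w`-cliques is good, then the graph is 2-divisible if and only if it has no odd hole.  If there is no
induced cycle of length five, then `S` has a 2-division if all subsets of `S` with the same clique number
`w ≥ 2` as `S` and whose vertices all miss `w`-cliques are good.
If the graph has no induced long hammer, every vertex set with clique number `w ≥ 3` satisfies (A) and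
so is good.  There is no induced long hammer if there is no induced path on five vertices, or no induced
hammer, or no induced disjoint union of a triangle and an edge. -/
theorem result :
    ∀ (V : Type) [Fintype V] [DecidableEq V] (G : SimpleGraph V),
      ((∀ (H : Finset V) (w : ℕ), 3 ≤ w → CliqueNumber G H w → PrimeSet G H → AllMiss G H w →
          Good G H w) →
        (TwoDivisible G ↔ NoOddHole G)) ∧
      (IsEmpty (SimpleGraph.cycleGraph 5 ↪g G) →
        ∀ (S : Finset V) (w : ℕ), 2 ≤ w → CliqueNumber G S w →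
          (∀ H : Finset V, H ⊆ S → CliqueNumber G H w → AllMiss G H w → Good G H w) →
          HasTwoDivision G S) ∧
      (IsEmpty (longHammer ↪g G) → ∀ (H : Finset V) (w : ℕ), 3 ≤ w → CondA G H w) ∧
      (IsEmpty (SimpleGraph.pathGraph 5 ↪g G) ∨ IsEmpty (hammer ↪g G) ∨
        IsEmpty (triangleEdge ↪g G) → IsEmpty (longHammer ↪g G)) := by
  intro V _ _ G
  have conv : ∀ (H : Finset V) (w : ℕ), 2 ≤ w → CliqueNumber G H w → Good G H w →
      Pool.Agent.H92.HM.Good2 G H w := by
    rintro H w hw hO (h | h | h | h)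
    · exact Or.inr (Or.inr (Or.inr (Or.inr h)))
    · exact Or.inr (Or.inl (Pool.Agent.H92.HM.condB_of (by omega) hO.2 h))
    · exact Or.inr (Or.inr (Or.inl h))
    · exact Or.inr (Or.inr (Or.inr (Or.inl h)))
  refine ⟨?_, ?_, ?_, ?_⟩
  · intro hG
    refine ⟨?_, ?_⟩
    · intro h2
      exact Pool.Agent.H92.TD.asm_forw h2
    · intro ho S hS
      exact Pool.Agent.H92.HM.prime_edge ho
        (fun H w hw hH hP hM => conv H w (by omega) hH (hG H w hw hH hP hM)) S hS
  · intro h5 S w hw hS hG
    exact Pool.Agent.H92.HM.lm_div (Pool.Agent.H92.TD.C5free_of_isEmpty h5) S w hw hS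
      (fun H hH hHw hM => Or.inl (conv H w hw hHw (hG H hH hHw hM)))
  · intro h1 H w hw
    exact Pool.Agent.H92.HM.condE_of h1 H hw
  · rintro (h | h | h)
    · exact ⟨fun g => h.false (Pool.Agent.H92.HM.p5_long.trans g)⟩
    · exact ⟨fun g => h.false (Pool.Agent.H92.HM.hammer_long.trans g)⟩
    · exact ⟨fun g => h.false (Pool.Agent.H92.HM.triEdge_long.trans g)⟩

end Pool.Agent.Results.MP_5aa732_co.LongHammerFree
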